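import Pool.Agent.helper24.TG.S4

set_option linter.all false
set_option autoImplicit false

namespace Pool.Agent.helper24.TG

open Finset Classical

/-! numeric facts for QB2, QB3, Q4f -/

theorem QNc (p : Par) : 10 ^ 6 ≤ p.c := by
  have h1 := p.hLog
  have h2 := p.hLam
  nlinarith

theorem QNB (p : Par) : 1 ≤ p.B := by
  have h := p.N7
  have hc := QNc p
  have : 1 ≤ p.c ^ 200 := Nat.one_le_pow _ _ (by omega)
  omega

theorem QNcB (p : Par) : p.c ≤ p.c * p.B := Nat.le_mul_of_pos_right _ (QNB p)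

theorem QNcB6 (p : Par) : 10 ^ 6 ≤ p.c * p.B := (QNc p).trans (QNcB p)

theorem QNq0 (p : Par) : (p.c * p.B) ^ 100 * p.N ≤ p.q * p.d := by
  have h := p.N2
  have hL := p.hL
  refine le_trans ?_ h
  have h1 : 1 ≤ p.L * (p.K + 1) := Nat.mul_pos hL (by omega)
  calc (p.c * p.B) ^ 100 * p.N = (p.c * p.B) ^ 100 * 1 * p.N := by ring
    _ ≤ (p.c * p.B) ^ 100 * (p.L * (p.K + 1)) * p.N :=
        Nat.mul_le_mul_right _ (Nat.mul_le_mul_left _ h1)
    _ = _ := by ring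

theorem QNq (p : Par) : (p.c * p.B) ^ 200 ≤ p.q := by
  have h := QNq0 p
  have h3 := p.N3'
  have hd : 0 < p.d := by have := p.hd; omega
  have h4 : (p.c * p.B) ^ 200 * p.d ≤ p.q * p.d := by
    calc (p.c * p.B) ^ 200 * p.d = (p.c * p.B) ^ 100 * ((p.c * p.B) ^ 100 * p.d) := by ring
      _ ≤ (p.c * p.B) ^ 100 * p.N := Nat.mul_le_mul_left _ h3
      _ ≤ _ := h
  exact Nat.le_of_mul_le_mul_right h4 hd

theorem QNf1 (p : Par) : (p.f1 - 1) * ((p.c * p.B) ^ 99 * (p.B * 10 ^ 6)) ≤ p.q := by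
  have hd : 0 < p.d := by have := p.hd; omega
  have h := p.N2
  set X := p.L * p.N * p.Lam / p.d with hX
  have hf : p.f1 - 1 = X := by simp [Par.f1, hX]
  rw [hf]
  have h1 : X * p.d ≤ p.L * p.N * p.Lam := Nat.div_mul_le_self _ _
  have h2 : (p.c * p.B) ^ 100 * (p.L * p.N) ≤ p.q * p.d := by
    refine le_trans ?_ h
    calc (p.c * p.B) ^ 100 * (p.L * p.N) = (p.c * p.B) ^ 100 * p.L * 1 * p.N := by ring
      _ ≤ (p.c * p.B) ^ 100 * p.L * (p.K + 1) * p.N :=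
          Nat.mul_le_mul_right _ (Nat.mul_le_mul_left _ (by omega))
  have h3 : X * ((p.c * p.B) ^ 100 * 10 ^ 6) * p.d ≤ p.q * p.c * p.d := by
    calc X * ((p.c * p.B) ^ 100 * 10 ^ 6) * p.d
        = (p.c * p.B) ^ 100 * 10 ^ 6 * (X * p.d) := by ring
      _ ≤ (p.c * p.B) ^ 100 * 10 ^ 6 * (p.L * p.N * p.Lam) := Nat.mul_le_mul_left _ h1
      _ = ((p.c * p.B) ^ 100 * (p.L * p.N)) * (10 ^ 6 * p.Lam) := by ring
      _ ≤ (p.q * p.d) * p.c := Nat.mul_le_mul h2 p.hLog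
      _ = _ := by ring
  have h4 := Nat.le_of_mul_le_mul_right h3 hd
  have hc : 0 < p.c := by have := QNc p; omega
  have h5 : X * ((p.c * p.B) ^ 99 * (p.B * 10 ^ 6)) * p.c ≤ p.q * p.c := by
    calc X * ((p.c * p.B) ^ 99 * (p.B * 10 ^ 6)) * p.c
        = X * ((p.c * p.B) ^ 100 * 10 ^ 6) := by ring
      _ ≤ _ := h4
  exact Nat.le_of_mul_le_mul_right h5 hc

theorem QNf1' (p : Par) : 1 ≤ p.f1 := by simp [Par.f1]

/-- `choose n m ≤ x ^ m` -/
theorem QNch (n m x : ℕ) (h : 3 * n ≤ x * m) (hm : 1 ≤ m) : n.choose m ≤ x ^ m := by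
  have h1 := choose_mul_pow_le n m
  have h2 : (3 * n) ^ m ≤ (x * m) ^ m := Nat.pow_le_pow_left h m
  rw [mul_pow x m] at h2
  exact Nat.le_of_mul_le_mul_right (h1.trans h2) (Nat.pow_pos hm)

theorem QNmult (p : Par) (n m k : ℕ) (hn : 3 * n ≤ (p.c * p.B) ^ 11 * m) (hm : 50 ≤ m)
    (hk : k ≤ 38 * m) : n.choose m * 2 ^ k ≤ p.E ^ (m / 2) := by
  set x := p.c * p.B with hx
  have hx6 : 2 ≤ x := by have := QNcB6 p; omega
  have h1 : n.choose m ≤ x ^ (11 * m) := by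
    rw [pow_mul]
    exact QNch n m _ hn (by omega)
  have h2 : 2 ^ k ≤ x ^ (38 * m) :=
    (Nat.pow_le_pow_right (by norm_num) hk).trans (Nat.pow_le_pow_left hx6 _)
  calc n.choose m * 2 ^ k ≤ x ^ (11 * m) * x ^ (38 * m) := Nat.mul_le_mul h1 h2
    _ = x ^ (49 * m) := by rw [← pow_add]; congr 1; omega
    _ ≤ x ^ (100 * (m / 2)) := Nat.pow_le_pow_right (by omega) (by omega)
    _ = (x ^ 100) ^ (m / 2) := by rw [pow_mul]
    _ ≤ _ := Nat.pow_le_pow_left p.N8 _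

theorem QNpair (p : Par) (n a k : ℕ) (hn : 3 * n ≤ (p.c * p.B) ^ 11 * a) (ha : 75 ≤ a)
    (hk : k ≤ 2 * a) : (n.choose a) ^ 2 * 2 ^ k ≤ p.E ^ (a / 4) := by
  set x := p.c * p.B with hx
  have hx6 : 2 ≤ x := by have := QNcB6 p; omega
  have h1 : n.choose a ≤ x ^ (11 * a) := by
    rw [pow_mul]
    exact QNch n a _ hn (by omega)
  have h2 : 2 ^ k ≤ x ^ (2 * a) :=
    (Nat.pow_le_pow_right (by norm_num) hk).trans (Nat.pow_le_pow_left hx6 _)
  calc (n.choose a) ^ 2 * 2 ^ k ≤ (x ^ (11 * a)) ^ 2 * x ^ (2 * a) :=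
        Nat.mul_le_mul (Nat.pow_le_pow_left h1 2) h2
    _ = x ^ (24 * a) := by rw [← pow_mul, ← pow_add]; congr 1; omega
    _ ≤ x ^ (100 * (a / 4)) := Nat.pow_le_pow_right (by omega) (by omega)
    _ = (x ^ 100) ^ (a / 4) := by rw [pow_mul]
    _ ≤ _ := Nat.pow_le_pow_left p.N8 _

theorem QNcancel (X Y c D T : ℕ) (h1 : X * D ≤ c * Y) (h2 : c * T ≤ D) (hD : 0 < D) :
    X * T ≤ Y := by
  have h : X * T * D ≤ Y * D := by
    calc X * T * D = (X * D) * T := by ring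
      _ ≤ (c * Y) * T := Nat.mul_le_mul_right _ h1
      _ = (c * T) * Y := by ring
      _ ≤ D * Y := Nat.mul_le_mul_right _ h2
      _ = Y * D := by ring
  exact Nat.le_of_mul_le_mul_right h hD

theorem QNE (p : Par) (e : ℕ) : 0 < p.E ^ e := by
  have h := p.N8
  have h1 : 0 < (p.c * p.B) ^ 100 := Nat.pow_pos (by have := QNcB6 p; omega)
  exact Nat.pow_pos (by omega)

end Pool.Agent.helper24.TG
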