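import Pool.Agent.helper24.TG.S4
import Pool.Agent.helper25.TG.QNum

set_option linter.all false
set_option autoImplicit false

namespace Pool.Agent.helper24.TG

open Finset Classical

/-- `rho ≥ (c B)^100` -/
theorem Q4f_rho (p : Par) : (((p.c * p.B) ^ 100 : ℕ) : ℝ) ≤ p.rho := by
  have h := QNq0 p
  have hN : (0 : ℝ) < p.N := by exact_mod_cast p.hN
  rw [Par.rho, le_div_iff₀ hN]
  exact_mod_cast h

/-- `C ≤ 2 c^3 rho` -/
theorem Q4f_C (p : Par) : (p.C : ℝ) ≤ 2 * p.c ^ 3 * p.rho := by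
  have h := p.hC2
  have hN : (0 : ℝ) < p.N := by exact_mod_cast p.hN
  rw [Par.rho, ← mul_div_assoc, le_div_iff₀ hN]
  have : ((p.C * p.N : ℕ) : ℝ) ≤ ((2 * p.c ^ 3 * p.q * p.d : ℕ) : ℝ) := by exact_mod_cast h
  push_cast at this
  linarith

/-- the least natural number `b` with `64 b > rho` -/
theorem Q4f_b (p : Par) : ∃ b : ℕ, 1 ≤ b ∧ (∀ m : ℕ, p.rho < 64 * (m : ℝ) → b ≤ m) ∧
    3 * p.C ≤ 384 * p.c ^ 3 * b ∧ p.c ^ 4 * p.B ≤ b := by
  have h0 := Q4f_rho p
  have hC := Q4f_C p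
  refine ⟨⌊p.rho / 64⌋₊ + 1, by omega, ?_, ?_, ?_⟩
  · intro m hm
    have h1 : p.rho / 64 < m := by linarith
    have h2 := (Nat.floor_lt' (by
      rintro rfl
      have : (0 : ℝ) ≤ p.rho := le_trans (by positivity) h0
      simp at h1
      linarith)).2 h1
    omega
  · have h1 : p.rho / 64 < ((⌊p.rho / 64⌋₊ + 1 : ℕ) : ℝ) := by
      push_cast
      exact Nat.lt_floor_add_one _
    have h2 : (3 * p.C : ℝ) ≤ 384 * p.c ^ 3 * ((⌊p.rho / 64⌋₊ + 1 : ℕ) : ℝ) := by
      have h3 : p.rho ≤ 64 * ((⌊p.rho / 64⌋₊ + 1 : ℕ) : ℝ) := by linarith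
      have hc : (0 : ℝ) ≤ 2 * p.c ^ 3 := by positivity
      calc (3 * p.C : ℝ) ≤ 3 * (2 * p.c ^ 3 * p.rho) := by linarith
        _ ≤ 3 * (2 * p.c ^ 3 * (64 * ((⌊p.rho / 64⌋₊ + 1 : ℕ) : ℝ))) := by
            have := mul_le_mul_of_nonneg_left h3 hc
            linarith
        _ = _ := by ring
    exact_mod_cast h2
  · have h1 : p.rho / 64 < ((⌊p.rho / 64⌋₊ + 1 : ℕ) : ℝ) := by
      push_cast
      exact Nat.lt_floor_add_one _
    have h2 : ((64 * (p.c ^ 4 * p.B) : ℕ) : ℝ) ≤ (((p.c * p.B) ^ 100 : ℕ) : ℝ) := by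
      have hx6 := QNcB6 p
      have hBx : p.B ≤ p.c * p.B := Nat.le_mul_of_pos_left _ (by have := QNc p; omega)
      have : 64 * (p.c ^ 4 * p.B) ≤ (p.c * p.B) ^ 100 := by
        calc 64 * (p.c ^ 4 * p.B) ≤ (p.c * p.B) * ((p.c * p.B) ^ 4 * (p.c * p.B)) :=
              Nat.mul_le_mul (by omega) (Nat.mul_le_mul (Nat.pow_le_pow_left (QNcB p) 4) hBx)
          _ = (p.c * p.B) ^ 6 := by ring
          _ ≤ _ := Nat.pow_le_pow_right (by omega) (by norm_num)
      exact_mod_cast this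
    have h3 : ((p.c ^ 4 * p.B : ℕ) : ℝ) ≤ ((⌊p.rho / 64⌋₊ + 1 : ℕ) : ℝ) := by
      have h4 : ((64 * (p.c ^ 4 * p.B) : ℕ) : ℝ) = 64 * ((p.c ^ 4 * p.B : ℕ) : ℝ) := by
        push_cast; ring
      rw [h4] at h2
      linarith
    exact_mod_cast h3

theorem Q4f (h4 : QB4_stmt) : Q4f_stmt := by
  intro p P O A V _ _ _ _ _ _ _ _ _ H v T MM v0 hA hT hH3
  have hc := QNc p
  have hB := QNB p
  have hx6 := QNcB6 p
  have hLam := p.hLam
  have hLog := p.hLog
  obtain ⟨b, hb1, hbm, hbC, hbB⟩ := Q4f_b p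
  set Ω := Fintype.piFinset (fun _ : Fin p.C => Psi p H v0) with hΩ
  have hΩc : Ω.card = (Psi p H v0).card ^ p.C := by
    rw [hΩ, Fintype.card_piFinset]
    simp
  -- number of points
  have hC1 : 1 ≤ p.C := by
    by_contra hcon
    have h0 : p.C = 0 := by omega
    have h1 := p.hC1
    rw [h0, zero_mul] at h1
    have hq : 0 < p.q := lt_of_lt_of_le (Nat.pow_pos (by omega)) (QNq p)
    have hd : 0 < p.d := by have := p.hd; omega
    have : 0 < p.c ^ 3 * p.q * p.d := by positivity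
    omega
  have hq2 : 2 ≤ p.q := by
    refine le_trans ?_ (QNq p)
    calc 2 ≤ (p.c * p.B) ^ 1 := by rw [pow_one]; omega
      _ ≤ _ := Nat.pow_le_pow_right (by omega) (by norm_num)
  have hcardX : Fintype.card (P × A) * 2 ≤ 2 ^ p.Lam := by
    rw [Fintype.card_prod, H.card_P, hA]
    refine le_trans ?_ p.s1
    have h1 : p.q ^ 2 + p.q + 1 ≤ 2 * p.q ^ 2 := by nlinarith
    calc (p.q ^ 2 + p.q + 1) * p.B * 2 ≤ (2 * p.q ^ 2) * p.B * 2 :=
          Nat.mul_le_mul_right _ (Nat.mul_le_mul_right _ h1)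
      _ = 4 * p.B * p.q ^ 2 * 1 := by ring
      _ ≤ _ := Nat.mul_le_mul_left _ hC1
  have hcardX1 : Fintype.card (P × A) ≤ 2 ^ p.Lam := by omega
  -- the bad events
  let bad : Bool × (P × A) → Finset (P × A) → (Fin p.C → P → V) → Prop := fun r E' φ =>
    Proper H r.2 ∧ E' ⊆ XA A H ∧ Disjoint E' (Nb H v r.1 r.2) ∧
      b ≤ ((Finset.univ : Finset (Fin p.C)).filter
        (fun j => BadC p H v T (φ j) r.1 r.2 E')).card
  have key : ∀ (r : Bool × (P × A)) (E' : Finset (P × A)), E'.Nonempty →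
      (Ω.filter (bad r E')).card * 2 ^ ((p.Lam + 1) * E'.card + (p.Lam + 4 * p.Lam)) ≤
        Ω.card := by
    intro r E' hE'
    by_cases hdet : Proper H r.2 ∧ E' ⊆ XA A H ∧ Disjoint E' (Nb H v r.1 r.2)
    · obtain ⟨hd1, hd2, hd3⟩ := hdet
      -- the least k0
      set g := 64 * p.c ^ 3 * p.B with hg
      have hg0 : 0 < g := by positivity
      have hE1 : 1 ≤ E'.card := Finset.card_pos.mpr hE'
      set k0 := (E'.card - 1) / g + 1 with hk0
      have hk01 : 1 ≤ k0 := Nat.le_add_left 1 _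
      have hkup : E'.card ≤ g * k0 := by
        have := Nat.lt_mul_div_succ (E'.card - 1) hg0
        rw [hk0]
        have h5 : g * ((E'.card - 1) / g).succ = g * ((E'.card - 1) / g + 1) := rfl
        omega
      have hklow : k0 = 1 ∨ 64 * p.c ^ 3 * p.B * (k0 - 1) < E'.card := by
        right
        rw [hk0, Nat.add_sub_cancel, ← hg]
        have := Nat.mul_div_le (E'.card - 1) g
        omega
      have hq4 := h4 p P O A V H v T MM v0 hA hT hH3 r.2 r.1 E' hd1 hd2 hd3 k0 hk01 hklow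
      have hpb := prod_bad (Psi p H v0) p.C b ((p.c ^ 8 * p.B ^ 2) ^ k0)
        (fun _ φ => BadC p H v T φ r.1 r.2 E') (fun _ => hq4)
      rw [← hΩ, ← hΩc] at hpb
      -- numerics
      have hch : p.C.choose b ≤ (384 * p.c ^ 3) ^ b := QNch _ _ _ hbC hb1
      have hnum : p.C.choose b * 2 ^ ((p.Lam + 1) * E'.card + (p.Lam + 4 * p.Lam)) ≤
          ((p.c ^ 8 * p.B ^ 2) ^ k0) ^ b := by
        have e1 : (384 * p.c ^ 3) ^ b ≤ ((p.c ^ 4 * p.B) ^ k0) ^ b := by
          refine Nat.pow_le_pow_left ?_ _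
          calc 384 * p.c ^ 3 ≤ p.c * p.c ^ 3 := Nat.mul_le_mul_right _ (by omega)
            _ = p.c ^ 4 * 1 := by ring
            _ ≤ p.c ^ 4 * p.B := Nat.mul_le_mul_left _ hB
            _ ≤ (p.c ^ 4 * p.B) ^ k0 := Nat.le_self_pow (by omega) _
        have e2 : 2 ^ ((p.Lam + 1) * E'.card + (p.Lam + 4 * p.Lam)) ≤
            ((p.c ^ 4 * p.B) ^ k0) ^ b := by
          have e3 : (p.Lam + 1) * E'.card + (p.Lam + 4 * p.Lam) ≤ k0 * b := by
            have e4 : (p.Lam + 1) * E'.card ≤ (2 * p.Lam) * (g * k0) :=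
              Nat.mul_le_mul (by omega) hkup
            have e5 : p.Lam + 4 * p.Lam ≤ (5 * p.Lam) * (g * k0) := by
              have : 1 ≤ g * k0 := Nat.mul_pos hg0 (by omega)
              calc p.Lam + 4 * p.Lam = (5 * p.Lam) * 1 := by ring
                _ ≤ _ := Nat.mul_le_mul_left _ this
            calc (p.Lam + 1) * E'.card + (p.Lam + 4 * p.Lam)
                ≤ (2 * p.Lam) * (g * k0) + (5 * p.Lam) * (g * k0) := Nat.add_le_add e4 e5
              _ = (448 * p.Lam) * (p.c ^ 3 * p.B * k0) := by rw [hg]; ring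
              _ ≤ p.c * (p.c ^ 3 * p.B * k0) := Nat.mul_le_mul_right _ (by omega)
              _ = k0 * (p.c ^ 4 * p.B) := by ring
              _ ≤ _ := Nat.mul_le_mul_left _ hbB
          have e6 : 2 ≤ p.c ^ 4 * p.B := by
            have : p.c ≤ p.c ^ 4 := Nat.le_self_pow (by norm_num) _
            nlinarith
          calc 2 ^ ((p.Lam + 1) * E'.card + (p.Lam + 4 * p.Lam)) ≤ 2 ^ (k0 * b) :=
                Nat.pow_le_pow_right (by norm_num) e3
            _ ≤ (p.c ^ 4 * p.B) ^ (k0 * b) := Nat.pow_le_pow_left e6 _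
            _ = _ := by rw [pow_mul]
        calc p.C.choose b * 2 ^ ((p.Lam + 1) * E'.card + (p.Lam + 4 * p.Lam))
            ≤ ((p.c ^ 4 * p.B) ^ k0) ^ b * ((p.c ^ 4 * p.B) ^ k0) ^ b :=
              Nat.mul_le_mul (hch.trans e1) e2
          _ = ((p.c ^ 8 * p.B ^ 2) ^ k0) ^ b := by
              rw [← mul_pow, ← mul_pow]
              congr 2
              ring
      have hsub : (Ω.filter (bad r E')).card ≤ (Ω.filter (fun φ =>
          b ≤ ((Finset.univ : Finset (Fin p.C)).filter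
            (fun j => BadC p H v T (φ j) r.1 r.2 E')).card)).card := by
        refine Finset.card_le_card ?_
        intro φ hφ
        rw [Finset.mem_filter] at hφ ⊢
        exact ⟨hφ.1, hφ.2.2.2.2⟩
      refine QNcancel _ _ _ _ _ ((Nat.mul_le_mul_right _ hsub).trans hpb) hnum ?_
      positivity
    · have : Ω.filter (bad r E') = ∅ := by
        rw [Finset.filter_eq_empty_iff]
        intro φ _ hφ
        exact hdet ⟨hφ.1, hφ.2.1, hφ.2.2.1⟩
      rw [this]
      simp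
  -- union over E'
  have key2 : ∀ r ∈ (Finset.univ : Finset (Bool × (P × A))),
      (Ω.filter (fun φ => ∃ S : Finset (P × A), S.Nonempty ∧ bad r S φ)).card *
        2 ^ (p.Lam + 4 * p.Lam) ≤ Ω.card := by
    intro r _
    exact ub_sets Ω p.Lam (p.Lam + 4 * p.Lam) hcardX1 (bad r) (key r)
  have key3 := ub Ω (Finset.univ : Finset (Bool × (P × A)))
    (fun r φ => ∃ S : Finset (P × A), S.Nonempty ∧ bad r S φ) p.Lam (4 * p.Lam) (by
      rw [Finset.card_univ, Fintype.card_prod, Fintype.card_bool]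
      omega) key2
  rw [hΩc] at key3
  refine le_trans (Nat.mul_le_mul_right _ (Finset.card_le_card ?_)) key3
  intro φ hφ
  rw [Finset.mem_filter] at hφ ⊢
  refine ⟨hφ.1, ?_⟩
  obtain ⟨_, hn⟩ := hφ
  unfold Q4 at hn
  push Not at hn
  obtain ⟨z, i, E', hz, hE', hdis, _, hlt⟩ := hn
  have hlt' : p.rho < 64 * ((((Finset.univ : Finset (Fin p.C)).filter
      (fun j => BadC p H v T (φ j) i z E')).card : ℕ) : ℝ) := by
    refine lt_of_lt_of_le hlt (le_of_eq ?_)
    congr 3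
    ext j
    simp only [Finset.mem_filter, Finset.mem_univ, true_and]
    rfl
  have hbb := hbm _ hlt'
  refine ⟨(i, z), Finset.mem_univ _, E', ?_, hz, hE', hdis, hbb⟩
  -- nonempty
  have hpos : 0 < ((Finset.univ : Finset (Fin p.C)).filter
      (fun j => BadC p H v T (φ j) i z E')).card := by omega
  obtain ⟨j, hj⟩ := Finset.card_pos.mp hpos
  obtain ⟨S, hS, hSn, _⟩ := (Finset.mem_filter.mp hj).2
  exact hSn.mono hS

end Pool.Agent.helper24.TG
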