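import Pool.Agent.helper24.TG.S4
import Pool.Agent.helper25.TG.QNum

set_option linter.all false
set_option autoImplicit false

namespace Pool.Agent.helper24.TG

open Finset Classical

/-- `f1` is small -/
theorem QNf1s (p : Par) (e : ℕ) (he : e ≤ 99) :
    (p.f1 - 1) * ((p.c * p.B) ^ e * (p.B * 10 ^ 6)) ≤ p.q := by
  refine le_trans ?_ (QNf1 p)
  have : (p.c * p.B) ^ e ≤ (p.c * p.B) ^ 99 :=
    Nat.pow_le_pow_right (by have := QNcB6 p; omega) he
  exact Nat.mul_le_mul_left _ (Nat.mul_le_mul_right _ this)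

theorem QB2 (hD : QD2_stmt) (hI : QI2_stmt) (hP : QP2_stmt) : QB2_stmt := by
  intro p P O A V _ _ _ _ _ _ _ _ _ H v T MM v0 hA hT hH2 E0 hE0 hcard k hk
  have hc := QNc p
  have hB := QNB p
  have hx6 := QNcB6 p
  have hq := QNq p
  set x := p.c * p.B with hx
  -- sizes
  have hxq : x ^ 20 ≤ p.q := le_trans (Nat.pow_le_pow_right (by omega) (by norm_num)) hq
  have hqpos : 0 < p.q := lt_of_lt_of_le (Nat.pow_pos (by omega)) hxq
  set M := p.c ^ 2 * p.q / p.B with hM
  set k2 := p.c ^ 2 * p.q / (2 * p.B) with hk2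
  set a := p.c ^ 2 * p.q / 4 with ha
  have hk2M : k2 = M / 2 := by
    rw [hk2, hM, Nat.div_div_eq_div_mul, mul_comm 2]
  have hkM : k ≤ M := by
    rw [hM, Nat.le_div_iff_mul_le (by omega)]
    calc k * p.B = p.B * k := by ring
      _ ≤ _ := hk
  -- lower bound for k2
  have e1 : p.c ^ 2 * p.q < 2 * p.B * (k2 + 1) := by
    rw [hk2]
    exact Nat.lt_mul_div_succ _ (by omega)
  have hBq : p.B * 10 ^ 6 ≤ p.q := by
    refine le_trans ?_ hxq
    calc p.B * 10 ^ 6 ≤ x * x := Nat.mul_le_mul (by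
            rw [hx]; exact Nat.le_mul_of_pos_left _ (by omega)) hx6
      _ = x ^ 2 := by ring
      _ ≤ x ^ 20 := Nat.pow_le_pow_right (by omega) (by norm_num)
  have e2 : 10 ^ 12 * p.q ≤ p.c ^ 2 * p.q := by
    refine Nat.mul_le_mul_right _ ?_
    calc 10 ^ 12 = (10 ^ 6) ^ 2 := by norm_num
      _ ≤ _ := Nat.pow_le_pow_left hc 2
  have hk2L : 10 ^ 6 ≤ k2 := by
    by_contra hcon
    push_neg at hcon
    have : p.c ^ 2 * p.q < 2 * p.B * 10 ^ 6 :=
      lt_of_lt_of_le e1 (Nat.mul_le_mul_left _ (by omega))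
    omega
  have e3 : p.c ^ 2 * p.q ≤ 4 * p.B * k2 := by
    have : 2 * p.B * (k2 + 1) ≤ 4 * p.B * k2 := by
      have : k2 + 1 ≤ 2 * k2 := by omega
      calc 2 * p.B * (k2 + 1) ≤ 2 * p.B * (2 * k2) := Nat.mul_le_mul_left _ this
        _ = _ := by ring
    omega
  have haL : 10 ^ 6 ≤ a := by
    have : k2 ≤ a := by
      rw [hk2, ha, ← Nat.div_div_eq_div_mul]
      have h1 : p.c ^ 2 * p.q / 2 / p.B ≤ p.c ^ 2 * p.q / 2 := Nat.div_le_self _ _
      have : 2 ^ 200 ≤ p.B := by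
        refine le_trans (Nat.pow_le_pow_left (by omega) 200) p.N7
      have h2 : p.c ^ 2 * p.q / 2 / p.B ≤ p.c ^ 2 * p.q / 2 / 2 :=
        Nat.div_le_div_left (by
          have : (2 : ℕ) ≤ 2 ^ 200 := by norm_num
          omega) (by norm_num)
      omega
    omega
  have e4 : p.c ^ 2 * p.q ≤ 8 * a := by omega
  -- the two events
  have h0 : (Psi p H v0).filter (fun φ => ∃ S, S ⊆ E0 ∧ FInd H v T φ S ∧
      p.c ^ 2 * p.q ≤ S.card) ⊆ (Psi p H v0).filter (fun φ => MultEv p H v T φ E0 k2) ∪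
      (Psi p H v0).filter (fun φ => PairEv p H v T φ E0 a) := by
    intro φ hφ
    rw [Finset.mem_filter] at hφ
    obtain ⟨hφ, S, hS, hind, hcS⟩ := hφ
    rw [Finset.mem_union, Finset.mem_filter, Finset.mem_filter]
    by_contra hcon
    push_neg at hcon
    have := hD p P O A V H v T φ hA hH2 E0 hE0 (hcon.1 hφ) (hcon.2 hφ) S hS hind
    omega
  have hf := QNf1s p 0 (by norm_num)
  rw [pow_zero, one_mul] at hf
  have hf1 := QNf1' p
  have hcc := QNf1s p 2 (by norm_num)
  -- multiplicity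
  have hM1 : ((Psi p H v0).filter (fun φ => MultEv p H v T φ E0 k2)).card * 2 ^ (k + 1) ≤
      (Psi p H v0).card := by
    have h8 : 8 * p.f1 ≤ k2 := by
      -- 8 (f1 - 1) * 10^6 B ≤ 8 q
      by_contra hcon
      push_neg at hcon
      have h9 : k2 ≤ 16 * (p.f1 - 1) := by omega
      have h10 : p.c ^ 2 * p.q ≤ 4 * p.B * (16 * (p.f1 - 1)) :=
        e3.trans (Nat.mul_le_mul_left _ h9)
      have h11 : 4 * p.B * (16 * (p.f1 - 1)) ≤ (p.f1 - 1) * (p.B * 10 ^ 6) := by
        calc 4 * p.B * (16 * (p.f1 - 1)) = (p.f1 - 1) * (p.B * 64) := by ring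
          _ ≤ _ := Nat.mul_le_mul_left _ (Nat.mul_le_mul_left _ (by norm_num))
      omega
    have h4 : 4 * k2 ≤ p.q ^ 2 := by
      have h5 : k2 ≤ p.c ^ 2 * p.q := Nat.div_le_self _ _
      calc 4 * k2 ≤ 4 * (p.c ^ 2 * p.q) := Nat.mul_le_mul_left _ h5
        _ = (4 * p.c ^ 2) * p.q := by ring
        _ ≤ p.q * p.q := by
            refine Nat.mul_le_mul_right _ (le_trans ?_ hxq)
            calc 4 * p.c ^ 2 ≤ x * x ^ 2 := Nat.mul_le_mul (by omega)
                  (Nat.pow_le_pow_left (QNcB p) 2)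
              _ = x ^ 3 := by ring
              _ ≤ x ^ 20 := Nat.pow_le_pow_right (by omega) (by norm_num)
        _ = p.q ^ 2 := by ring
    have h := hI p P O A V H v T MM v0 hA hT E0 hE0 k2 h8 h4
    refine QNcancel _ _ _ _ _ h ?_ (QNE p _)
    refine QNmult p _ _ _ ?_ (by omega) (by omega)
    calc 3 * E0.card ≤ 3 * (p.q * p.B) := Nat.mul_le_mul_left _ hcard
      _ ≤ (p.c ^ 2 * p.q) * p.B := by nlinarith
      _ ≤ (4 * p.B * k2) * p.B := Nat.mul_le_mul_right _ e3
      _ = (4 * (p.B * p.B)) * k2 := by ring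
      _ ≤ x ^ 11 * k2 := by
          refine Nat.mul_le_mul_right _ ?_
          have hBx : p.B ≤ x := by rw [hx]; exact Nat.le_mul_of_pos_left _ (by omega)
          calc 4 * (p.B * p.B) ≤ x * (x * x) := Nat.mul_le_mul (by omega)
                (Nat.mul_le_mul hBx hBx)
            _ = x ^ 3 := by ring
            _ ≤ x ^ 11 := Nat.pow_le_pow_right (by omega) (by norm_num)
  -- pairs
  have hM2 : ((Psi p H v0).filter (fun φ => PairEv p H v T φ E0 a)).card * 2 ^ (k + 1) ≤
      (Psi p H v0).card := by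
    have h8 : 16 * p.f1 ≤ a := by
      by_contra hcon
      push_neg at hcon
      have h9 : a ≤ 32 * (p.f1 - 1) := by omega
      have h10 : p.c ^ 2 * p.q ≤ 8 * (32 * (p.f1 - 1)) := e4.trans (Nat.mul_le_mul_left _ h9)
      have h11 : 8 * (32 * (p.f1 - 1)) ≤ (p.f1 - 1) * (p.B * 10 ^ 6) := by
        calc 8 * (32 * (p.f1 - 1)) = (p.f1 - 1) * 256 := by ring
          _ ≤ _ := Nat.mul_le_mul_left _ (by nlinarith)
      omega
    have h8c : 8 * p.c ≤ a := by
      have : p.c * p.c ≤ 8 * a := by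
        refine le_trans ?_ e4
        calc p.c * p.c = p.c ^ 2 * 1 := by ring
          _ ≤ _ := Nat.mul_le_mul_left _ hqpos
      have h9 : 64 * p.c ≤ p.c * p.c := Nat.mul_le_mul_right _ (by omega)
      omega
    have h16 : 16 * a ≤ p.q ^ 2 := by
      have h5 : 4 * a ≤ p.c ^ 2 * p.q := by omega
      calc 16 * a = 4 * (4 * a) := by ring
        _ ≤ 4 * (p.c ^ 2 * p.q) := Nat.mul_le_mul_left _ h5
        _ = (4 * p.c ^ 2) * p.q := by ring
        _ ≤ p.q * p.q := by
            refine Nat.mul_le_mul_right _ (le_trans ?_ hxq)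
            calc 4 * p.c ^ 2 ≤ x * x ^ 2 := Nat.mul_le_mul (by omega)
                  (Nat.pow_le_pow_left (QNcB p) 2)
              _ = x ^ 3 := by ring
              _ ≤ x ^ 20 := Nat.pow_le_pow_right (by omega) (by norm_num)
        _ = p.q ^ 2 := by ring
    have h := hP p P O A V H v T MM v0 hA hT E0 hE0 a h8 h8c h16
    refine QNcancel _ _ _ _ _ h ?_ (QNE p _)
    refine QNpair p _ _ _ ?_ (by omega) ?_
    · calc 3 * E0.card ≤ 3 * (p.q * p.B) := Nat.mul_le_mul_left _ hcard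
        _ ≤ (p.c ^ 2 * p.q) * p.B := by nlinarith
        _ ≤ (8 * a) * p.B := Nat.mul_le_mul_right _ e4
        _ = (8 * p.B) * a := by ring
        _ ≤ x ^ 11 * a := by
            refine Nat.mul_le_mul_right _ ?_
            have hBx : p.B ≤ x := by rw [hx]; exact Nat.le_mul_of_pos_left _ (by omega)
            calc 8 * p.B ≤ x * x := Nat.mul_le_mul (by omega) hBx
              _ = x ^ 2 := by ring
              _ ≤ x ^ 11 := Nat.pow_le_pow_right (by omega) (by norm_num)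
    · -- k + 1 ≤ 2 a
      have h1 : 8 * k ≤ p.c ^ 2 * p.q := by
        have hB8 : 8 ≤ p.B := by
          have : 2 ^ 200 ≤ p.B := le_trans (Nat.pow_le_pow_left (by omega) 200) p.N7
          have : (8 : ℕ) ≤ 2 ^ 200 := by norm_num
          omega
        exact (Nat.mul_le_mul_right _ hB8).trans hk
      omega
  -- conclusion
  have h2 := (Finset.card_le_card h0).trans (Finset.card_union_le _ _)
  have h3 : 2 * (((Psi p H v0).filter (fun φ => ∃ S, S ⊆ E0 ∧ FInd H v T φ S ∧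
      p.c ^ 2 * p.q ≤ S.card)).card * 2 ^ k) ≤ 2 * (Psi p H v0).card := by
    calc 2 * (((Psi p H v0).filter (fun φ => ∃ S, S ⊆ E0 ∧ FInd H v T φ S ∧
      p.c ^ 2 * p.q ≤ S.card)).card * 2 ^ k)
        = ((Psi p H v0).filter (fun φ => ∃ S, S ⊆ E0 ∧ FInd H v T φ S ∧
      p.c ^ 2 * p.q ≤ S.card)).card * 2 ^ (k + 1) := by rw [pow_succ]; ring
      _ ≤ (((Psi p H v0).filter (fun φ => MultEv p H v T φ E0 k2)).card +
          ((Psi p H v0).filter (fun φ => PairEv p H v T φ E0 a)).card) * 2 ^ (k + 1) :=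
          Nat.mul_le_mul_right _ h2
      _ = ((Psi p H v0).filter (fun φ => MultEv p H v T φ E0 k2)).card * 2 ^ (k + 1) +
          ((Psi p H v0).filter (fun φ => PairEv p H v T φ E0 a)).card * 2 ^ (k + 1) := by ring
      _ ≤ (Psi p H v0).card + (Psi p H v0).card := Nat.add_le_add hM1 hM2
      _ = _ := by ring
  omega

end Pool.Agent.helper24.TG
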