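import Pool.Agent.helper24.TG.S4
import Pool.Agent.helper25.TG.QNum

set_option linter.all false
set_option autoImplicit false

namespace Pool.Agent.helper24.TG

open Finset Classical

theorem QB3_pow (p : Par) (i j : ℕ) (h : i ≤ j) : (p.c * p.B) ^ i ≤ (p.c * p.B) ^ j :=
  Nat.pow_le_pow_right (by have := QNcB6 p; omega) h

theorem QB3_Bx (p : Par) : p.B ≤ p.c * p.B :=
  Nat.le_mul_of_pos_left _ (by have := QNc p; omega)

theorem QB3_f1 (p : Par) : (p.f1 - 1) * ((p.c * p.B) ^ 9 * (p.B * 10 ^ 6)) ≤ p.q := by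
  refine le_trans ?_ (QNf1 p)
  exact Nat.mul_le_mul_left _ (Nat.mul_le_mul_right _ (QB3_pow p 9 99 (by norm_num)))

theorem QB3_f1' (p : Par) : (p.f1 - 1) * (p.c ^ 4 * p.B * 10 ^ 6) ≤ p.q := by
  refine le_trans (Nat.mul_le_mul_left _ ?_) (QB3_f1 p)
  have h1 : p.c ^ 4 ≤ (p.c * p.B) ^ 9 :=
    (Nat.pow_le_pow_left (QNcB p) 4).trans (QB3_pow p 4 9 (by norm_num))
  calc p.c ^ 4 * p.B * 10 ^ 6 = p.c ^ 4 * (p.B * 10 ^ 6) := by ring
    _ ≤ _ := Nat.mul_le_mul_right _ h1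

/-- the pair event -/
theorem QB3_pair (hP : QP2_stmt) (p : Par) (P O A V : Type) [Fintype P] [DecidableEq P] [Fintype O]
    [DecidableEq O] [Fintype A] [DecidableEq A] [AddCommGroup A] [Fintype V] [DecidableEq V]
    (H : Host P O p.q) (v : O → A) (T : SimpleGraph V) (MM : Finset (Finset V)) (v0 : V)
    (hA : Fintype.card A = p.B) (hT : TSp p T MM) (E0 : Finset (P × A)) (hE0 : E0 ⊆ XA A H)
    (hcard : E0.card ≤ p.c ^ 6 * p.q) (k a : ℕ) (hk : k ≤ 2 * a) (h1 : p.q ≤ 16 * p.c ^ 4 * a)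
    (h2 : a ≤ p.q) :
    ((Psi p H v0).filter (fun φ => PairEv p H v T φ E0 a)).card * 2 ^ k ≤ (Psi p H v0).card := by
  have hc := QNc p
  have hB := QNB p
  have hx6 := QNcB6 p
  have hq := QNq p
  have hcx := QNcB p
  have hBx := QB3_Bx p
  have hf := QB3_f1' p
  have hf1 := QNf1' p
  set x := p.c * p.B with hx
  have hc4 : 0 < p.c ^ 4 := Nat.pow_pos (by omega)
  have hxq : x ^ 20 ≤ p.q := le_trans (Nat.pow_le_pow_right (by omega) (by norm_num)) hq
  -- a is large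
  have haL : p.c * 16 * 10 ^ 6 ≤ a := by
    have h3 : (16 * p.c ^ 4) * (p.c * 16 * 10 ^ 6) ≤ (16 * p.c ^ 4) * a := by
      refine le_trans ?_ h1
      refine le_trans ?_ hxq
      calc (16 * p.c ^ 4) * (p.c * 16 * 10 ^ 6) = 256 * 10 ^ 6 * p.c ^ 5 := by ring
        _ ≤ (x * x) * x ^ 5 := Nat.mul_le_mul (by nlinarith) (Nat.pow_le_pow_left hcx 5)
        _ = x ^ 7 := by ring
        _ ≤ x ^ 20 := Nat.pow_le_pow_right (by omega) (by norm_num)
    exact Nat.le_of_mul_le_mul_left h3 (by positivity)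
  have h8 : 16 * p.f1 ≤ a := by
    by_contra hcon
    have h9 : a ≤ 32 * (p.f1 - 1) := by omega
    have h10 : p.q ≤ 16 * p.c ^ 4 * (32 * (p.f1 - 1)) := h1.trans (Nat.mul_le_mul_left _ h9)
    have h11 : 16 * p.c ^ 4 * (32 * (p.f1 - 1)) ≤ (p.f1 - 1) * (p.c ^ 4 * p.B * 1000) := by
      calc 16 * p.c ^ 4 * (32 * (p.f1 - 1)) = (p.f1 - 1) * (p.c ^ 4 * 1 * 512) := by ring
        _ ≤ _ := Nat.mul_le_mul_left _ (Nat.mul_le_mul (Nat.mul_le_mul_left _ hB)
            (by norm_num))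
    have h12 : 1000 * ((p.f1 - 1) * (p.c ^ 4 * p.B * 1000)) =
      (p.f1 - 1) * (p.c ^ 4 * p.B * 10 ^ 6) := by ring
    have hq0 : 0 < p.q := lt_of_lt_of_le (Nat.pow_pos (by omega)) hxq
    omega
  have h8c : 8 * p.c ≤ a := by omega
  have h16 : 16 * a ≤ p.q ^ 2 := by
    calc 16 * a ≤ p.q * p.q := Nat.mul_le_mul (by
          refine le_trans ?_ hxq
          calc 16 ≤ x := by omega
            _ = x ^ 1 := by ring
            _ ≤ _ := Nat.pow_le_pow_right (by omega) (by norm_num)) h2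
      _ = p.q ^ 2 := by ring
  have h := hP p P O A V H v T MM v0 hA hT E0 hE0 a h8 h8c h16
  refine QNcancel _ _ _ _ _ h ?_ (QNE p _)
  refine QNpair p _ _ _ ?_ (by omega) hk
  calc 3 * E0.card ≤ 3 * (p.c ^ 6 * p.q) := Nat.mul_le_mul_left _ hcard
    _ ≤ 3 * (p.c ^ 6 * (16 * p.c ^ 4 * a)) :=
        Nat.mul_le_mul_left _ (Nat.mul_le_mul_left _ h1)
    _ = (48 * p.c ^ 10) * a := by ring
    _ ≤ x ^ 11 * a := by
        refine Nat.mul_le_mul_right _ ?_
        calc 48 * p.c ^ 10 ≤ x * x ^ 10 := Nat.mul_le_mul (by omega)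
              (Nat.pow_le_pow_left hcx 10)
          _ = x ^ 11 := by ring

theorem QB3 (hD : QD3_stmt) (hI : QI2_stmt) (hP : QP2_stmt) : QB3_stmt := by
  intro p P O A V _ _ _ _ _ _ _ _ _ H v T MM v0 hA hT hH2 hH3 E0 hE0 hcard k hk
  have hc := QNc p
  have hB := QNB p
  have hx6 := QNcB6 p
  have hq := QNq p
  have hcx := QNcB p
  have hBx := QB3_Bx p
  have hf := QB3_f1' p
  have hf1 := QNf1' p
  set x := p.c * p.B with hx
  have hc4 : 0 < p.c ^ 4 := Nat.pow_pos (by omega)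
  have hxq : x ^ 20 ≤ p.q := le_trans (Nat.pow_le_pow_right (by omega) (by norm_num)) hq
  have hq0 : 0 < p.q := lt_of_lt_of_le (Nat.pow_pos (by omega)) hxq
  set M := p.q / (p.c ^ 4 * p.B) with hM
  set k3 := p.q / (4 * p.c ^ 4 * p.B) with hk3
  set a1 := p.q / (8 * p.c ^ 4) with ha1
  have hk3M : k3 = M / 4 := by
    rw [hk3, hM, Nat.div_div_eq_div_mul]
    congr 1
    ring
  have hkM : k ≤ M := by
    rw [hM, Nat.le_div_iff_mul_le (by positivity)]
    calc k * (p.c ^ 4 * p.B) = p.c ^ 4 * p.B * k := by ring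
      _ ≤ _ := hk
  have e1 : p.q < 4 * p.c ^ 4 * p.B * (k3 + 1) := Nat.lt_mul_div_succ _ (by positivity)
  have e1' : p.q < 8 * p.c ^ 4 * (a1 + 1) := Nat.lt_mul_div_succ _ (by positivity)
  have hk3L : 10 ^ 6 ≤ k3 := by
    by_contra hcon
    have h1 : 4 * p.c ^ 4 * p.B * (k3 + 1) ≤ 4 * p.c ^ 4 * p.B * 10 ^ 6 :=
      Nat.mul_le_mul_left _ (by omega)
    have h2 : 4 * p.c ^ 4 * p.B * 10 ^ 6 ≤ x ^ 20 := by
      calc 4 * p.c ^ 4 * p.B * 10 ^ 6 ≤ x * x ^ 4 * x * x :=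
            Nat.mul_le_mul (Nat.mul_le_mul (Nat.mul_le_mul (by omega)
              (Nat.pow_le_pow_left hcx 4)) hBx) hx6
        _ = x ^ 7 := by ring
        _ ≤ x ^ 20 := Nat.pow_le_pow_right (by omega) (by norm_num)
    omega
  have e3 : p.q ≤ 8 * p.c ^ 4 * p.B * k3 := by
    have : 4 * p.c ^ 4 * p.B * (k3 + 1) ≤ 8 * p.c ^ 4 * p.B * k3 := by
      calc 4 * p.c ^ 4 * p.B * (k3 + 1) ≤ 4 * p.c ^ 4 * p.B * (2 * k3) :=
            Nat.mul_le_mul_left _ (by omega)
        _ = _ := by ring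
    omega
  have ha1k : k3 ≤ a1 := by
    rw [hk3, ha1]
    refine Nat.div_le_div_left ?_ (by positivity)
    have hB2 : 2 ≤ p.B := by
      have : 2 ^ 200 ≤ p.B := le_trans (Nat.pow_le_pow_left (by omega) 200) p.N7
      have : (2 : ℕ) ≤ 2 ^ 200 := by norm_num
      omega
    calc 8 * p.c ^ 4 = 4 * p.c ^ 4 * 2 := by ring
      _ ≤ _ := Nat.mul_le_mul_left _ hB2
  have hMa : M ≤ a1 := by
    rw [hM, ha1]
    refine Nat.div_le_div_left ?_ (by positivity)
    have hB8 : 8 ≤ p.B := by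
      have : 2 ^ 200 ≤ p.B := le_trans (Nat.pow_le_pow_left (by omega) 200) p.N7
      have : (8 : ℕ) ≤ 2 ^ 200 := by norm_num
      omega
    calc 8 * p.c ^ 4 = p.c ^ 4 * 8 := by ring
      _ ≤ _ := Nat.mul_le_mul_left _ hB8
  have e4 : p.q ≤ 16 * p.c ^ 4 * a1 := by
    have : 8 * p.c ^ 4 * (a1 + 1) ≤ 16 * p.c ^ 4 * a1 := by
      calc 8 * p.c ^ 4 * (a1 + 1) ≤ 8 * p.c ^ 4 * (2 * a1) := Nat.mul_le_mul_left _ (by omega)
        _ = _ := by ring
    omega
  -- the events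
  have h0 : (Psi p H v0).filter (fun φ => ¬ GoodC p H v T φ E0) ⊆
      (Psi p H v0).filter (fun φ => MultEv p H v T φ E0 k3) ∪
      ((Psi p H v0).filter (fun φ => PairEv p H v T φ E0 a1) ∪
      (Psi p H v0).filter (fun φ => PairEv p H v T φ E0 (p.q / 32 + 1))) := by
    intro φ hφ
    rw [Finset.mem_filter] at hφ
    obtain ⟨hφ, hbad⟩ := hφ
    rw [Finset.mem_union, Finset.mem_union, Finset.mem_filter, Finset.mem_filter,
      Finset.mem_filter]
    by_contra hcon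
    rw [not_or, not_or] at hcon
    exact hbad (hD p P O A V H v T φ hA hH2 hH3 E0 hE0 (fun h => hcon.1 ⟨hφ, h⟩)
      (fun h => hcon.2.1 ⟨hφ, h⟩) (fun h => hcon.2.2 ⟨hφ, h⟩))
  have hkk : k + 2 ≤ 4 * k3 + 5 := by omega
  -- multiplicity
  have hM1 : ((Psi p H v0).filter (fun φ => MultEv p H v T φ E0 k3)).card * 2 ^ (k + 2) ≤
      (Psi p H v0).card := by
    have h8 : 8 * p.f1 ≤ k3 := by
      by_contra hcon
      have h9 : k3 ≤ 16 * (p.f1 - 1) := by omega
      have h10 : p.q ≤ 8 * p.c ^ 4 * p.B * (16 * (p.f1 - 1)) :=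
        e3.trans (Nat.mul_le_mul_left _ h9)
      have h11 : 1000 * (8 * p.c ^ 4 * p.B * (16 * (p.f1 - 1))) ≤
          (p.f1 - 1) * (p.c ^ 4 * p.B * 10 ^ 6) := by
        calc 1000 * (8 * p.c ^ 4 * p.B * (16 * (p.f1 - 1))) =
            (p.f1 - 1) * (p.c ^ 4 * p.B * 128000) := by ring
          _ ≤ _ := Nat.mul_le_mul_left _ (Nat.mul_le_mul_left _ (by norm_num))
      omega
    have h4 : 4 * k3 ≤ p.q ^ 2 := by
      have h5 : k3 ≤ p.q := Nat.div_le_self _ _
      calc 4 * k3 ≤ p.q * p.q := Nat.mul_le_mul (by omega) h5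
        _ = p.q ^ 2 := by ring
    have h := hI p P O A V H v T MM v0 hA hT E0 hE0 k3 h8 h4
    refine QNcancel _ _ _ _ _ h ?_ (QNE p _)
    refine QNmult p _ _ _ ?_ (by omega) (by omega)
    calc 3 * E0.card ≤ 3 * (p.c ^ 6 * p.q) := Nat.mul_le_mul_left _ hcard
      _ ≤ 3 * (p.c ^ 6 * (8 * p.c ^ 4 * p.B * k3)) :=
          Nat.mul_le_mul_left _ (Nat.mul_le_mul_left _ e3)
      _ = (24 * p.c ^ 10 * p.B) * k3 := by ring
      _ ≤ x ^ 11 * k3 := by
          refine Nat.mul_le_mul_right _ ?_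
          have hB2 : 24 * p.c ^ 10 * p.B = 24 * (p.c ^ 10 * p.B) := by ring
          rw [hB2]
          have : x ^ 11 = (p.c * p.B ^ 10) * (p.c ^ 10 * p.B) := by rw [hx]; ring
          rw [this]
          refine Nat.mul_le_mul_right _ ?_
          calc 24 ≤ p.c * 1 := by omega
            _ ≤ _ := Nat.mul_le_mul_left _ (Nat.one_le_pow _ _ hB)
  have hM2 := QB3_pair hP p P O A V H v T MM v0 hA hT E0 hE0 hcard (k + 2) a1 (by omega) e4
    (Nat.div_le_self _ _)
  have hM3 := QB3_pair hP p P O A V H v T MM v0 hA hT E0 hE0 hcard (k + 2) (p.q / 32 + 1) (by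
      have : a1 ≤ p.q / 32 := by
        rw [ha1]
        refine Nat.div_le_div_left ?_ (by norm_num)
        have : p.c ≤ p.c ^ 4 := Nat.le_self_pow (by norm_num) _
        omega
      omega) (by
      have h1 : p.q ≤ 32 * (p.q / 32 + 1) := by omega
      refine h1.trans (Nat.mul_le_mul_right _ ?_)
      have : p.c ≤ p.c ^ 4 := Nat.le_self_pow (by norm_num) _
      omega) (by
      have : 2 ≤ p.q := by
        refine le_trans ?_ hxq
        calc 2 ≤ x := by omega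
          _ = x ^ 1 := by ring
          _ ≤ _ := Nat.pow_le_pow_right (by omega) (by norm_num)
      omega)
  -- conclusion
  have h2 := (Finset.card_le_card h0).trans (Finset.card_union_le _ _)
  have h2' := Finset.card_union_le ((Psi p H v0).filter (fun φ => PairEv p H v T φ E0 a1))
    ((Psi p H v0).filter (fun φ => PairEv p H v T φ E0 (p.q / 32 + 1)))
  have h3 : 4 * (((Psi p H v0).filter (fun φ => ¬ GoodC p H v T φ E0)).card * 2 ^ k) ≤
      3 * (Psi p H v0).card := by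
    calc 4 * (((Psi p H v0).filter (fun φ => ¬ GoodC p H v T φ E0)).card * 2 ^ k)
        = ((Psi p H v0).filter (fun φ => ¬ GoodC p H v T φ E0)).card * 2 ^ (k + 2) := by
          rw [pow_add]; ring
      _ ≤ (((Psi p H v0).filter (fun φ => MultEv p H v T φ E0 k3)).card +
          (((Psi p H v0).filter (fun φ => PairEv p H v T φ E0 a1)).card +
          ((Psi p H v0).filter (fun φ => PairEv p H v T φ E0 (p.q / 32 + 1))).card)) *
            2 ^ (k + 2) := Nat.mul_le_mul_right _ (h2.trans (Nat.add_le_add_left h2' _))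
      _ = ((Psi p H v0).filter (fun φ => MultEv p H v T φ E0 k3)).card * 2 ^ (k + 2) +
          (((Psi p H v0).filter (fun φ => PairEv p H v T φ E0 a1)).card * 2 ^ (k + 2) +
          ((Psi p H v0).filter (fun φ => PairEv p H v T φ E0 (p.q / 32 + 1))).card *
            2 ^ (k + 2)) := by ring
      _ ≤ (Psi p H v0).card + ((Psi p H v0).card + (Psi p H v0).card) :=
          Nat.add_le_add hM1 (Nat.add_le_add hM2 hM3)
      _ = _ := by ring
  omega

end Pool.Agent.helper24.TG
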